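import Mathlib
import Pool.Agent.N730.FT.Main

/-!
# The strong countable fan tightness game on `C_p(X)` in forcing extensions

Sentences of the forcing language of a preordered set `P` are the sets of the conditions which force
them, names for subsets of a ground model set `Y` are the maps `Y → Set P`
(`Pool/Agent/Helper669/Forcing.lean`, a starting file; the games in the ground model and in the extension
are defined in `Pool/Agent/N730/FT/Game.lean`).  If II has a winning strategy in the strong countable fan
tightness game at every point of `C_p(X)`, then every condition of every forcing notion `P` forces that
II has one at every point of the ground model set `C_p(X)`, whose topology has the ground model topology
of pointwise convergence as a base.  No hypothesis on `P` is used, in particular not that `P` is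
strongly proper, and none on `X`.

Proof: see `Pool/Agent/N730/FT`.  A winning strategy of II gives a rule which attaches to every finite
sequence of points an open neighbourhood of the point, such that the point is in the closure of every
sequence which obeys the rule; such a rule still does this in the extension, by absoluteness of
wellfoundedness, and II can use it there.
-/

set_option autoImplicit false

namespace Pool.Agent.Results.MP_abf503_lc.FanGameOnFunctions

open Pool.Agent.Helper669.Forcing
open Pool.Agent.N730.FT

universe u v

/-- `C_p(X)`: the continuous real functions on `X` with the topology of pointwise convergence (the
topology of a subspace of the product `X → ℝ`) -/
abbrev Cp (X : Type v) [TopologicalSpace X] : Type v := {f : X → ℝ // Continuous f}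

/-- Let `P` be a preordered set and let `X` be a topological space.  If II has a winning strategy in the
strong countable fan tightness game at every point of `C_p(X)`, then every condition forces that in the
extension II has a winning strategy at every point of the ground model set `C_p(X)`, for the topology
which has the ground model topology as a base. -/
theorem result (P : Type u) [Preorder P] (X : Type v) [TopologicalSpace X]
    (h : ∀ f : Cp X, IIWins f) : ∀ p : P, p ∈ fall fun f : Cp X => fIIWins P f :=
  fun p f => preserved P (h f) p

end Pool.Agent.Results.MP_abf503_lc.FanGameOnFunctions
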